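import Pool.Agent.Lib.MP_6be952_lc.Defs
import Pool.Agent.Lib.MP_6be952_lc.Proof

namespace Pool.Agent.Results.MP_6be952_lc.Continuum

open Pool.Agent.Lib.MP_6be952_lc

/-- There are uncountably many, in fact exactly continuum many, consequence relations that are
extensions of MTL by a substitution-closed set of formulas and have the deductive interpolation
property. -/
theorem result :
    ¬ {C : Set Fm → Fm → Prop | IsAxiomaticExtension C ∧ DIP C}.Countable ∧
      Cardinal.mk {C : Set Fm → Fm → Prop | IsAxiomaticExtension C ∧ DIP C} =
        Cardinal.continuum :=
  ⟨uncountable_dipExtensions, mk_dipExtensions⟩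

end Pool.Agent.Results.MP_6be952_lc.Continuum
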